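import Pool.Agent.Y599.RB.Und
import Pool.Agent.Y599.RB.Mem

/-!
# The unweighted red-blue `s`-`t` cut problem in undirected graphs is NP-complete

Reduction from the clique problem. Let `G` be a graph with `n` vertices. Add `s` and `t`, a blue edge
`sv` for every vertex `v` of `G`, and `3 n - deg v` red paths of length two from `v` to `t`; the edges
of `G` are red. If `A` is the set of the vertices of `G` on the side of `s`, then `n - |A|` blue edges
are cut and at least `3 n |A| - 2 e(A)` red edges.
-/

namespace Pool.Agent.Results.MP_ad21dd_lc.RedBlueSTCutNPComplete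

open Pool.Agent.NPC Pool.Agent.Y599.RB

/-- The unweighted red-blue `s`-`t` cut problem in undirected (simple) graphs is NP-complete. -/
theorem result : InNPP RedBlueSTCut ∧ NPHardP RedBlueSTCut :=
  ⟨inNPP_undirected, Und.hardI.toNPHardP⟩

end Pool.Agent.Results.MP_ad21dd_lc.RedBlueSTCutNPComplete
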